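import Mathlib
import Pool.Agent.Helper22.ETModel
import Pool.Agent.Helper8.UV.Defs
import Pool.Agent.Helper53.TC5.Model
import Pool.Agent.Helper21.MP.Defs2
import Pool.Agent.Helper21.MP.Main2
import Pool.Agent.Helper14.MP.V1
import Pool.Agent.Helper28.MP.V5
import Pool.Agent.Helper36.MP.V4
import Pool.Agent.Helper53.MP.V
import Pool.Agent.Helper21.MP.V8
import Pool.Agent.Helper21.MP.Three

/-!
# Exact Triangle by threshold circuits with matrix products

A circuit consists of finitely many voters, which are arbitrary real functions of the instance; it
accepts if the sum of the votes is positive. The instances are complete tripartite: the classes are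
the residues modulo 3, with `n₀ ≥ n₁ ≥ n₂` vertices, and the three sides `01`, `12` and `02` are the
three weight matrices between them. The circuit knows the flags; the difficulty is in the weights.

We ask for the help of functions that see two of the three sides, or all of them, without
restriction, except that they use each weight `w i j` of the side `01` in a restricted way. This is
what all algorithms do that use products of matrices whose entries are functions of single weights.
The price of a voter is

* `0` if it ignores the weights of one of the three sides, so arbitrary functions of any two of the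
  three weight matrices are free (for example everything that can be computed with products of
  matrices which come from two sides);
* the sum over the cells `i j` of the side `01` of `K i j + B i j` if, for all fixed values of all
  the other weights, it is as a function of the weight `w i j` a constant plus an element of one of
  `2 ^ B i j` fixed spaces of functions of dimension `K i j` (which space, which element and which
  constant may depend arbitrarily on the other weights). Examples:
  - `K i j` is the degree in `w i j` and `B i j = 0` for a real polynomial in the weights,
  - `K i j` is the number of the matrices `X r` whose entry `i j` is not constant and `B i j = 0` for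
    the sum of the traces of the products `X r * Y r * Z r` of any number of triples of matrices
    whose entries are arbitrary real functions of the weights, entry by entry,
  - `K i j = 1` and `B i j = B` for the sum over all `i j` of arbitrary real functions of `w i j` and
    `h i j`, where `h i j` is an arbitrary string of `B` bits computed from the two other sides (for
    example the bits of the entries `i j` of ring products or (min, +)-products of arbitrary matrices
    which are computed from the two other sides),
  - `K i j = 2 ^ k` and `B i j = B` for an arbitrary real function of the two other sides and of `k`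
    bits of each weight `w i j`, where these `k` bits may be an arbitrary function of `w i j` and
    `h i j` as before;
* the number of pairs of cells `i j`, `i k` in `Q` (at most `#Q * min #Q n`) for an arbitrary real
  function of all the weights of the side `12` and of the weights in the set `Q` of cells.

Theorem 1. If a random circuit is correct with probability at least `19/20` on every valid complete
tripartite instance and `n ≥ 2 ^ 13` then `n ^ 3` is at most `2 ^ 17` times the expected total
price of its voters.

So, even if all functions of any two sides are free, and if the traces of products of `n ^ (1 - ε)`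
triples of matrices and arbitrary entrywise tests of the weights of one side against the entries of
`n ^ (1 - ε)` ring products or (min, +)-products of the two other sides are added, `n ^ 3 / C`
functions of three weights are still necessary.

Theorem 2. If a circuit is correct on all valid complete tripartite instances, and if the price of an
arbitrary function of the weights in a set `Q` of cells is now the number of triangles in `Q`, and
if only voters with `B i j = 0` are used then the total price is at least `n₀ * n₁ * (n₂ - 1)`, for
every `n`. This is sharp up to the `- 1`: `n₀ * n₁ * n₂` functions of three weights with price `1` are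
enough. It is sharp up to the factor `2` for a single voter with `K i j = 2 * n₂`, which is a
polynomial. In particular the sum over `i j` of the degrees in `w i j` of every real polynomial which
is positive exactly on the valid complete tripartite instances with a solution is between
`n₀ * n₁ * (n₂ - 1)` and `2 * n₀ * n₁ * n₂`.

Idea of the proofs. For fixed `i j` consider a star of triangles `i j k` with one common edge: the
weight `a` of `i j` is one of `4 * (k + 1)`, and only the triangle `i j k` can have sum zero; whether
it has depends on a bit which is distributed over the weights of `j k` and `i k` such that a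
function of two sides does not know it. So these functions are constants plus functions that are
killed by a second difference, and what remains is a family of functions of `a`, one for each
sequence of hidden bits, whose sign at the point of `k` is the bit of `k`. In theorem 1 almost every
sequence of bits would agree in more than `3/4` of the places with the signs of a member of one of
`16 ^ B` linear spaces of dimension `4 * K + 2` if the price were too small; this contradicts the
inequality of Sauer. In theorem 2 a linear dependence between `K + 2` points gives two sign patterns
such that the difference of the sums over all the instances with these patterns kills all voters that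
do not see a whole triangle, but it is positive by the signs.
-/

set_option autoImplicit false

namespace Pool.Agent.Helper21.Kept.MatrixProducts

open Pool.Agent.Helper22.ETModel Pool.Agent.Helper8.VT Pool.Agent.Helper8.UV
open Pool.Agent.Helper53.TC5 Pool.Agent.Helper21.MP2

theorem isTest_of_isLow {n : ℕ} {K : Fin n → Fin n → ℕ} {H : Inst n → ℝ} (h : IsLow K H) :
    IsTest K (fun _ _ => 0) H := by
  intro f i j hi hj
  obtain ⟨φ, hφ⟩ := h f i j hi hj
  refine ⟨fun _ => φ, fun w => ?_⟩
  obtain ⟨c, d, hd⟩ := hφ w
  exact ⟨c, d, ⟨0, by norm_num⟩, hd⟩

/-- Exact Triangle by threshold circuits with matrix products: the lower bound for random circuits,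
the lower bound for circuits that are correct on all instances, two matching upper bounds, and
examples of voters. -/
theorem result :
    -- random circuits
    (∀ n : ℕ, 2 ^ 13 ≤ n → ∀ (Ω ι : Type) [Fintype Ω] [Nonempty Ω] [Fintype ι]
      (H : Ω → ι → Inst n → ℝ) (κ : Ω → ι → ℕ), (∀ ω r, PriceR (H ω r) (κ ω r)) →
      (∀ I : Inst n, I.Valid → Tripartite I → Decides H I) →
      (n : ℝ) ^ 3 ≤ 2 ^ 17 * ((∑ ω, ∑ r, (κ ω r : ℝ)) / Fintype.card Ω)) ∧
    -- circuits that are correct on all instances
    (∀ (n : ℕ) (ι : Type) [Fintype ι] (H : ι → Inst n → ℝ) (κ : ι → ℕ),
      (∀ r, PriceD (H r) (κ r)) →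
      (∀ I : Inst n, I.Valid → Tripartite I → (0 < ∑ r, H r I ↔ I.Yes)) →
      (n + 2) / 3 * ((n + 1) / 3) * (n / 3 - 1) ≤ ∑ r, κ r) ∧
    -- functions of three weights
    (∀ n : ℕ, ∃ H : Fin ((n + 2) / 3 * ((n + 1) / 3) * (n / 3)) → Inst n → ℝ,
      (∀ r, IsLocal 1 (H r) ∧ IsView 1 (H r) ∧ ∃ u v z : Fin n, ∀ (f : Flags n) (w w' : Wts n),
        w u v = w' u v → w v z = w' v z → w u z = w' u z → H r ⟨f, w⟩ = H r ⟨f, w'⟩) ∧
      ∀ I : Inst n, I.Valid → Tripartite I → (0 < ∑ r, H r I ↔ I.Yes)) ∧
    -- one voter of dimension `2 * n₂`
    (∀ n : ℕ, ∃ H : Inst n → ℝ, IsLow (fun _ _ => 2 * (n / 3)) H ∧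
      ∀ I : Inst n, I.Valid → Tripartite I → (0 < H I ↔ I.Yes)) ∧
    -- examples of voters
    (∀ (n : ℕ) (K : Fin n → Fin n → ℕ) (H : Inst n → ℝ), IsLow K H → IsTest K (fun _ _ => 0) H) ∧
    (∀ (n : ℕ) (p : MvPolynomial (Fin n × Fin n) ℝ),
      IsLow (fun i j => p.degreeOf (i, j) + p.degreeOf (j, i))
        (fun I => MvPolynomial.eval (fun c => ((I.wt c.1 c.2 : ℤ) : ℝ)) p)) ∧
    (∀ (n K : ℕ) (X Y Z : Fin K → Fin n → Fin n → ℤ → ℝ), IsLow (active X) (traces X Y Z)) ∧
    (∀ (n B : ℕ) (g : Fin n → Fin n → ℤ → Fin (2 ^ B) → ℝ)
      (h : Fin n → Fin n → Flags n → Wts n → Fin (2 ^ B)),
      IsTest (fun _ _ => 1) (fun _ _ => B) (tests g h)) ∧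
    (∀ (n k B : ℕ) (θ : Fin n → Fin n → ℤ → Fin (2 ^ B) → Fin (2 ^ k))
      (h : Fin n → Fin n → Flags n → Wts n → Fin (2 ^ B))
      (F : Flags n → Wts n → (Fin n → Fin n → Fin (2 ^ k)) → ℝ),
      IsTest (fun _ _ => 2 ^ k) (fun _ _ => B) (digest θ h F)) ∧
    (∀ (n : ℕ) (Q : Finset (Fin n × Fin n)), pairs Q ≤ Q.card * min Q.card n) :=
  ⟨fun n hn Ω ι _ _ _ H κ hκ hdec => lower_rand n hn Ω ι H κ hκ hdec,
    fun n ι _ H κ hκ hH => Pool.Agent.Helper36.MPV.lower_det n ι H κ hκ hH,
    Pool.Agent.Helper21.MP2.Three.upper_local, Pool.Agent.Helper14.MP2.upper_low,
    fun _ _ _ h => isTest_of_isLow h,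
    fun _ p => Pool.Agent.Helper21.MP2.isLow_poly p,
    fun _ _ X Y Z => Pool.Agent.Helper53.MP2.isLow_traces X Y Z,
    fun _ _ g h => Pool.Agent.Helper53.MP2.isTest_tests g h,
    fun _ _ _ θ h F => Pool.Agent.Helper53.MP2.isTest_digest θ h F,
    fun _ Q => Pool.Agent.Helper28.MP2.pairs_le Q⟩

end Pool.Agent.Helper21.Kept.MatrixProducts
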