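import Mathlib
import Pool.Agent.Helper22.ETModel
import Pool.Agent.Helper8.PR.Model
import Pool.Agent.Helper21.MG.Defs
import Pool.Agent.Helper12.MX.Model
import Pool.Agent.Helper21.MX.Final

/-!
# Exact Triangle: time times space is at least `n ^ (3 - ε)` for real register machines with
arithmetic, any number of sparse comparisons and few dense ones

The model (files `Pool/Agent/Helper8/PR/Model.lean`, `Pool/Agent/Helper21/MG/Defs.lean` and
`Pool/Agent/Helper12/MX/Model.lean`). A randomized machine has a memory (a natural number) and
`r` real registers. In every one of its `D` steps each register is rewritten by the value of an
arbitrary real polynomial in all the weights and all the registers; then it asks one query, the sign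
of a real polynomial in all the weights and all the registers, or whether such a polynomial is
zero. The flags, the random bits and the time are known for free, and everything may depend on them
and on the memory in an arbitrary way. Substituting the polynomials held by the registers one sees
that every query is a query about a polynomial in the weights. The restrictions (`WithinM`), for
fixed flags and random bits and over all valid instances:

* at every time at most `C` different configurations occur, where a configuration consists of the
  memory and the polynomials in the weights held by the registers (so the space is `log C`);
* the polynomials in the weights asked for their signs are sparse, that is, integer affine forms in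
  at most `s` weights with coefficients at most `κ` and constant term at most `n ^ b` in absolute
  value, any number of them, or they are among `K` real polynomials of degree at most `d`;
* the polynomials in the weights in zero tests have degree at most `a` (any number of them).

Theorem: for all `d`, `c`, `s`, `b`, `w`, `σ`, `ε` with
`(d + 1) (5 + max w (2 s + b)) + 2 d (d + 1) + d (max w (s (ε + σ))) (2 / ε + 2) < c` there is
`δ > 0` such that for large `n`: if `a ≤ n ^ δ`, `κ ≤ n ^ δ`, `min K (C D) ≤ n ^ w`,
`log C ≤ n ^ σ` and the machine decides Exact Triangle on all valid instances with weights between
`-n ^ c` and `n ^ c` with probability `2/3`, then `D (1 + log C) ≥ n ^ (3 - ε)`.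

For `c = 300` (the instances of the problem), `s = 6` (all 3-linear, 4-linear and 6-linear
comparisons), `C ≤ 2 ^ (n ^ 0.5)` and `n ^ 4` dense polynomials this gives `D (1 + log C) ≥ n ^ 2.96`
for linear, `n ^ 2.92` for quadratic and `n ^ 2.86` for cubic polynomials, and for
`C ≤ 2 ^ (n ^ o(1))` and `n ^ o(1)` dense linear ones every exponent below three, for all `s ≤ 47`.
For `D = n ^ 3` two configurations and zero tests of degree one suffice. Without the restriction
of the space `n ^ (2 + o(1))` sparse comparisons suffice (Kane, Lovett, Moran).

Idea of the proof. The instance contains `n / 3` hidden instances of element distinctness. Half of
the elements are deleted, that is, their weights get huge independent values. The weight of any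
other element is a sum of widely separated parts, one for each level: the part of level `i` is a
random mask of a random hash value of the first `i + 1` digits of the element; and there is random
noise on the lowest scale. For all sparse forms simultaneously the masks of a level have no short
relation: so the value of a sparse form on the first level where some hash class has nonzero
coefficient sum is nonzero and decides the sign, and up to this level every element of the form has
a mate with the same hash value. For a dense polynomial a variable is pivotal if it is not deleted
and the largest magnitude of a monomial increases when it is deleted; with high probability there
are few pivotal variables (encoding argument), and the sign does not change if all variables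
outside the deleted and pivotal ones are replaced by zero (anticoncentration). If a pivotal
variable has no mate on level `i` among the pivotal variables still present on this level, then its
lower parts do not matter: treating the variables in the order in which they are lost, the mask of
its hash value occurs nowhere else. So every sign query looks at few elements, which depend only on
the set of deleted elements, and reveals an element on a level only if it has a mate there. The
number of elements revealed in a window of the computation is bounded by an exponential
supermartingale, for all starting states simultaneously, and recursively over longer and longer
windows. Zero tests give no information because of the noise: on a line parallel to an axis all sign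
queries together have few different answer vectors. At the end, a change that turns the instance
into a yes-instance is noticed only if an element is revealed on all levels.
-/

set_option autoImplicit false

namespace Pool.Agent.Helper21.Kept.SparseDenseTimeSpace

open Pool.Agent.Helper8.PR Pool.Agent.Helper21.MX

/-- Real register machines with arithmetic, any number of sparse comparisons and few dense ones:
time times space is at least `n ^ (3 - ε)`. -/
theorem result (d c s b : ℕ) (w σ ε : ℝ) (hd : 1 ≤ d) (hw : 0 ≤ w) (hσ : 0 ≤ σ) (hε : 0 < ε)
    (h : (d + 1) * (5 + max w (2 * s + b)) + 2 * d * (d + 1) +
      d * max w (s * (ε + σ)) * (2 / ε + 2) < c) :
    ∃ δ : ℝ, 0 < δ ∧ ∃ n₀ : ℕ, ∀ n : ℕ, n₀ ≤ n → ∀ a κ C K D r R : ℕ,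
      (a : ℝ) ≤ (n : ℝ) ^ δ → (κ : ℝ) ≤ (n : ℝ) ^ δ →
      ((min K (C * D) : ℕ) : ℝ) ≤ (n : ℝ) ^ w → Real.logb 2 C ≤ (n : ℝ) ^ σ →
      ∀ A : Mach n D r R, WithinM A c C K d s κ (n ^ b) a → A.Decides c →
        (n : ℝ) ^ (3 - ε) ≤ D * (1 + Real.logb 2 C) :=
  asymMach d c s b w σ ε hd hw hσ hε h

end Pool.Agent.Helper21.Kept.SparseDenseTimeSpace
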